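import Mathlib

/-! Randomly perturbed digraphs: definitions. -/

namespace Pool.Agent.H235Z.Ham

open Finset Filter Topology Asymptotics

/-- A digraph on `Fin n` is a set of ordered pairs without loops. -/
def IsDigraph {n : ℕ} (D : Finset (Fin n × Fin n)) : Prop := ∀ e ∈ D, e.1 ≠ e.2

/-- The minimum semidegree of `D` is at least `d`. -/
def MinSemi {n : ℕ} (D : Finset (Fin n × Fin n)) (d : ℝ) : Prop :=
  ∀ v : Fin n, d ≤ ((univ.filter fun w => (v, w) ∈ D).card : ℝ) ∧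
    d ≤ ((univ.filter fun w => (w, v) ∈ D).card : ℝ)

/-- `D` has a directed cycle `e 0 → e 1 → ⋯ → e (n-1) → e 0` through all vertices. -/
def IsHamiltonian {n : ℕ} (D : Finset (Fin n × Fin n)) : Prop :=
  ∃ e : Equiv.Perm (Fin n), ∀ i, (e i, e (finRotate n i)) ∈ D

open Classical in
/-- The probability that the binomial random digraph `D(n,p)` has property `P`. -/
noncomputable def prob (n : ℕ) (p : ℝ) (P : Finset (Fin n × Fin n) → Prop) : ℝ :=
  ∑ S ∈ (univ : Finset (Fin n)).offDiag.powerset,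
    if P S then p ^ S.card * (1 - p) ^ ((univ : Finset (Fin n)).offDiag.card - S.card) else 0

/-- `q` is a `d`-threshold for Hamiltonicity of randomly perturbed digraphs. -/
def IsThreshold (d q : ℕ → ℝ) : Prop :=
  (∀ p : ℕ → ℝ, (∀ n, 0 ≤ p n ∧ p n ≤ 1) → q =o[atTop] p →
    ∀ D : (n : ℕ) → Finset (Fin n × Fin n), (∀ n, IsDigraph (D n) ∧ MinSemi (D n) (d n)) →
      Tendsto (fun n => prob n (p n) fun S => IsHamiltonian (D n ∪ S)) atTop (𝓝 1)) ∧
  (∀ p : ℕ → ℝ, (∀ n, 0 ≤ p n ∧ p n ≤ 1) → p =o[atTop] q →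
    ∃ D : (n : ℕ) → Finset (Fin n × Fin n), (∀ n, IsDigraph (D n) ∧ MinSemi (D n) (d n)) ∧
      Tendsto (fun n => prob n (p n) fun S => ¬ IsHamiltonian (D n ∪ S)) atTop (𝓝 1))

end Pool.Agent.H235Z.Ham
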