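import Mathlib

/-! The position lemma: many boosters. -/

namespace Pool.Agent.H235Z.Ham

open Finset

/-- an improving exchange exists for the relation `H` on positions, `x` being the last position -/
def Pat (H : ℕ → ℕ → Prop) (x : ℕ) : Prop :=
  (∃ p s, p < s ∧ s < x ∧ H x p ∧ H p s ∧ H s x) ∨
  (∃ q s p r, q < s ∧ s < p ∧ p < r ∧ r < x ∧ H x p ∧ H p q ∧ H q r ∧ H r s ∧ H s x) ∨
  (∃ r s p q, r < s ∧ s < p ∧ p < q ∧ q < x ∧ H x p ∧ H p q ∧ H q r ∧ H r s ∧ H s x)

/-- adding the pair `(a, b)` creates an improving exchange -/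
def Good (H : ℕ → ℕ → Prop) (x a b : ℕ) : Prop :=
  a < x ∧ b < x ∧ a ≠ b + 1 ∧ Pat (fun u w => H u w ∨ (u = a ∧ w = b)) x

theorem card_le3 {A B C D : Finset ℕ} (h : ∀ u ∈ A, u ∈ B ∨ u ∈ C ∨ u ∈ D) :
    A.card ≤ B.card + C.card + D.card := by
  have h1 : A ⊆ B ∪ C ∪ D := fun u hu => by
    rcases h u hu with h | h | h <;> simp [h]
  have h2 := card_le_card h1
  have h3 := card_union_le (B ∪ C) D
  have h4 := card_union_le B C
  omega

theorem card_le5 {A B C D E F : Finset ℕ}
    (h : ∀ u ∈ A, u ∈ B ∨ u ∈ C ∨ u ∈ D ∨ u ∈ E ∨ u ∈ F) :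
    A.card ≤ B.card + C.card + D.card + E.card + F.card := by
  have h1 : A ⊆ B ∪ C ∪ D ∪ E ∪ F := fun u hu => by
    rcases h u hu with h | h | h | h | h <;> simp [h]
  have h2 := card_le_card h1
  have h3 := card_union_le (B ∪ C) D
  have h4 := card_union_le B C
  have h5 := card_union_le (B ∪ C ∪ D) E
  have h6 := card_union_le (B ∪ C ∪ D ∪ E) F
  omega

theorem card_split (P : ℕ → Prop) [DecidablePred P] {A B C : Finset ℕ}
    (h : ∀ u ∈ A, u ∈ B ∨ u ∈ C) :
    (A.filter P).card ≤ (B.filter P).card + (C.filter P).card := by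
  have h1 : A.filter P ⊆ B.filter P ∪ C.filter P := fun u hu => by
    rw [mem_filter] at hu
    rcases h u hu.1 with h | h <;> simp [h, hu.2]
  exact le_trans (card_le_card h1) (card_union_le _ _)

theorem exists_inter {A B C : Finset ℕ} (hA : A ⊆ C) (hB : B ⊆ C) (h : C.card < A.card + B.card) :
    ∃ u, u ∈ A ∧ u ∈ B := by
  by_contra hc
  push Not at hc
  have h1 : Disjoint A B := disjoint_left.2 hc
  have h2 := card_le_card (union_subset hA hB)
  rw [card_union_of_disjoint h1] at h2
  omega

theorem pos_lemma (H : ℕ → ℕ → Prop) [DecidableRel H] (x k : ℕ) (hk : 1 ≤ k)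
    (h1 : 100 * k ≤ x + 1) (h2 : x + 1 ≤ 101 * k)
    (hout : ∀ u < x + 1, 49 * k ≤ ((range (x + 1)).filter (fun w => H u w)).card)
    (hin : ∀ w < x + 1, 49 * k ≤ ((range (x + 1)).filter (fun u => H u w)).card)
    (hxx : ¬ H x x) :
    ∃ X Y : Finset ℕ, k ≤ X.card ∧ k ≤ Y.card ∧ ∀ a ∈ X, ∀ b ∈ Y, Good H x a b := by
  have hO := hout x (by omega)
  have hI := hin x (by omega)
  by_cases hA : k ≤ ((range (48 * k)).filter (fun w => H x w)).card
  · refine ⟨_, (Ico (48 * k) (x + 1)).filter (fun u => H u x), hA, ?_, ?_⟩
    · have := card_split (fun u => H u x) (A := range (x + 1))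
        (B := Ico (48 * k) (x + 1)) (C := range (48 * k))
        (fun u hu => by simp only [mem_range, mem_Ico] at hu ⊢; omega)
      have h3 := card_filter_le (range (48 * k)) (fun u => H u x)
      simp only [card_range] at h3
      omega
    · intro a ha b hb
      simp only [mem_filter, mem_range, mem_Ico] at ha hb
      have hbx : b ≠ x := fun e => hxx (e ▸ hb.2)
      exact ⟨by omega, by omega, by omega, Or.inl ⟨a, b, by omega, by omega, Or.inl ha.2,
        Or.inr ⟨rfl, rfl⟩, Or.inl hb.2⟩⟩
  by_cases hB : k ≤ ((Ico (x + 1 - 48 * k) (x + 1)).filter (fun u => H u x)).card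
  · refine ⟨(range (x + 1 - 48 * k)).filter (fun w => H x w), _, ?_, hB, ?_⟩
    · have := card_split (fun w => H x w) (A := range (x + 1))
        (B := range (x + 1 - 48 * k)) (C := Ico (x + 1 - 48 * k) (x + 1))
        (fun u hu => by simp only [mem_range, mem_Ico] at hu ⊢; omega)
      have h3 := card_filter_le (Ico (x + 1 - 48 * k) (x + 1)) (fun w => H x w)
      simp only [Nat.card_Ico] at h3
      omega
    · intro a ha b hb
      simp only [mem_filter, mem_range, mem_Ico] at ha hb
      have hbx : b ≠ x := fun e => hxx (e ▸ hb.2)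
      exact ⟨by omega, by omega, by omega, Or.inl ⟨a, b, by omega, by omega, Or.inl ha.2,
        Or.inr ⟨rfl, rfl⟩, Or.inl hb.2⟩⟩
  set MO := (Ico (48 * k) (x + 1)).filter (fun w => ¬ H x w) with hMO
  set MI := (range (x + 1 - 48 * k)).filter (fun u => ¬ H u x) with hMI
  have hMOc : MO.card ≤ 5 * k := by
    have e1 := card_filter_add_card_filter_not (s := Ico (48 * k) (x + 1)) (fun w => H x w)
    have e2 := card_split (fun w => H x w) (A := range (x + 1))
      (B := range (48 * k)) (C := Ico (48 * k) (x + 1))
      (fun u hu => by simp only [mem_range, mem_Ico] at hu ⊢; omega)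
    rw [← hMO, Nat.card_Ico] at e1
    omega
  have hMIc : MI.card ≤ 5 * k := by
    have e1 := card_filter_add_card_filter_not (s := range (x + 1 - 48 * k)) (fun u => H u x)
    have e2 := card_split (fun u => H u x) (A := range (x + 1))
      (B := range (x + 1 - 48 * k)) (C := Ico (x + 1 - 48 * k) (x + 1))
      (fun u hu => by simp only [mem_range, mem_Ico] at hu ⊢; omega)
    rw [← hMI, card_range] at e1
    omega
  classical
  set Q := (Ico (50 * k) x).filter (fun q => ∃ p, H x p ∧ 50 * k ≤ p ∧ p < q ∧ H p q) with hQ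
  set R := (range (50 * k)).filter (fun r => ∃ s, H s x ∧ r < s ∧ s < 50 * k ∧ H r s) with hR
  by_cases hQc : Q.card < k
  · have hp : ∃ p, p ∈ Ico (50 * k) (56 * k) ∧ H x p := by
      by_contra hc
      push Not at hc
      have : Ico (50 * k) (56 * k) ⊆ MO := fun u hu => by
        have := hc u hu
        simp only [hMO, mem_filter, mem_Ico] at hu ⊢
        exact ⟨by omega, this⟩
      have := card_le_card this
      simp only [Nat.card_Ico] at this
      omega
    obtain ⟨p, hp1, hp2⟩ := hp
    rw [mem_Ico] at hp1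
    refine ⟨Ico (x + 1 - 3 * k) x \ Q, (Ico (40 * k) (50 * k)).filter (fun u => H u x), ?_, ?_, ?_⟩
    · have := le_card_sdiff Q (Ico (x + 1 - 3 * k) x)
      simp only [Nat.card_Ico] at this
      omega
    · have := card_le3 (A := Ico (40 * k) (50 * k))
        (B := (Ico (40 * k) (50 * k)).filter (fun u => H u x)) (C := MI) (D := ∅)
        (fun u hu => by
          simp only [hMI, mem_filter, mem_range, mem_Ico] at hu ⊢
          by_cases h : H u x
          · exact Or.inl ⟨hu, h⟩
          · exact Or.inr (Or.inl ⟨by omega, h⟩))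
      simp only [Nat.card_Ico, card_empty] at this
      omega
    · intro r hr s hs
      simp only [mem_filter, mem_sdiff, mem_Ico] at hr hs
      have e1 := card_le5 (A := (range (x + 1)).filter (fun w => H p w))
        (B := (range (40 * k)).filter (fun w => H p w)) (C := Ico (40 * k) (56 * k)) (D := Q)
        (E := {x}) (F := ∅)
        (fun u hu => by
          simp only [mem_filter, mem_range, mem_Ico, mem_singleton] at hu ⊢
          by_cases h : u < 40 * k
          · exact Or.inl ⟨h, hu.2⟩
          by_cases h' : u < 56 * k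
          · exact Or.inr (Or.inl ⟨by omega, h'⟩)
          by_cases h'' : u = x
          · exact Or.inr (Or.inr (Or.inr (Or.inl h'')))
          refine Or.inr (Or.inr (Or.inl ?_))
          simp only [hQ, mem_filter, mem_Ico]
          exact ⟨⟨by omega, by omega⟩, p, hp2, hp1.1, by omega, hu.2⟩)
      have e2 := card_le5 (A := (range (x + 1)).filter (fun u => H u r))
        (B := (range (40 * k)).filter (fun u => H u r)) (C := Ico (40 * k) (50 * k)) (D := MO)
        (E := Ico (x + 1 - 3 * k) (x + 1)) (F := ∅)
        (fun u hu => by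
          simp only [mem_filter, mem_range, mem_Ico] at hu ⊢
          by_cases h : u < 40 * k
          · exact Or.inl ⟨h, hu.2⟩
          by_cases h' : u < 50 * k
          · exact Or.inr (Or.inl ⟨by omega, h'⟩)
          by_cases h'' : x + 1 - 3 * k ≤ u
          · exact Or.inr (Or.inr (Or.inr (Or.inl ⟨h'', hu.1⟩)))
          refine Or.inr (Or.inr (Or.inl ?_))
          simp only [hMO, mem_filter, mem_Ico]
          refine ⟨⟨by omega, by omega⟩, fun hxu => hr.2 ?_⟩
          simp only [hQ, mem_filter, mem_Ico]
          exact ⟨⟨by omega, by omega⟩, u, hxu, by omega, by omega, hu.2⟩)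
      have e3 := hout p (by omega)
      have e4 := hin r (by omega)
      simp only [Nat.card_Ico, card_empty, card_singleton] at e1 e2
      obtain ⟨q, hq1, hq2⟩ := exists_inter (A := (range (40 * k)).filter (fun w => H p w))
        (B := (range (40 * k)).filter (fun u => H u r)) (C := range (40 * k))
        (filter_subset _ _) (filter_subset _ _) (by rw [card_range]; omega)
      simp only [mem_filter, mem_range] at hq1 hq2
      exact ⟨by omega, by omega, by omega, Or.inr (Or.inl ⟨q, s, p, r, by omega, by omega,
        by omega, by omega, Or.inl hp2, Or.inl hq1.2, Or.inl hq2.2, Or.inr ⟨rfl, rfl⟩,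
        Or.inl hs.2⟩)⟩
  by_cases hRc : R.card < k
  · have hs : ∃ s, s ∈ Ico (44 * k) (50 * k) ∧ H s x := by
      by_contra hc
      push Not at hc
      have : Ico (44 * k) (50 * k) ⊆ MI := fun u hu => by
        have := hc u hu
        simp only [hMI, mem_filter, mem_Ico, mem_range] at hu ⊢
        exact ⟨by omega, this⟩
      have := card_le_card this
      simp only [Nat.card_Ico] at this
      omega
    obtain ⟨s, hs1, hs2⟩ := hs
    rw [mem_Ico] at hs1
    refine ⟨(Ico (50 * k) (60 * k)).filter (fun w => H x w), range (3 * k) \ R, ?_, ?_, ?_⟩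
    · have := card_le3 (A := Ico (50 * k) (60 * k))
        (B := (Ico (50 * k) (60 * k)).filter (fun w => H x w)) (C := MO) (D := ∅)
        (fun u hu => by
          simp only [hMO, mem_filter, mem_Ico] at hu ⊢
          by_cases h : H x u
          · exact Or.inl ⟨hu, h⟩
          · exact Or.inr (Or.inl ⟨by omega, h⟩))
      simp only [Nat.card_Ico, card_empty] at this
      omega
    · have := le_card_sdiff R (range (3 * k))
      simp only [card_range] at this
      omega
    · intro p hp q hq
      simp only [mem_filter, mem_sdiff, mem_Ico, mem_range] at hp hq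
      have e1 := card_le5 (A := (range (x + 1)).filter (fun w => H q w))
        (B := (Ico (60 * k) x).filter (fun w => H q w)) (C := Ico (50 * k) (60 * k)) (D := MI)
        (E := {x}) (F := range (3 * k))
        (fun u hu => by
          simp only [mem_filter, mem_range, mem_Ico, mem_singleton] at hu ⊢
          by_cases h'' : u = x
          · exact Or.inr (Or.inr (Or.inr (Or.inl h'')))
          by_cases h : 60 * k ≤ u
          · exact Or.inl ⟨⟨h, by omega⟩, hu.2⟩
          by_cases h' : 50 * k ≤ u
          · exact Or.inr (Or.inl ⟨h', by omega⟩)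
          by_cases h3 : u < 3 * k
          · exact Or.inr (Or.inr (Or.inr (Or.inr h3)))
          refine Or.inr (Or.inr (Or.inl ?_))
          simp only [hMI, mem_filter, mem_range]
          refine ⟨by omega, fun hux => hq.2 ?_⟩
          simp only [hR, mem_filter, mem_range]
          exact ⟨by omega, u, hux, by omega, by omega, hu.2⟩)
      have e2 := card_le5 (A := (range (x + 1)).filter (fun u => H u s))
        (B := (Ico (60 * k) x).filter (fun u => H u s)) (C := Ico (44 * k) (60 * k)) (D := R)
        (E := {x}) (F := ∅)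
        (fun u hu => by
          simp only [mem_filter, mem_range, mem_Ico, mem_singleton] at hu ⊢
          by_cases h'' : u = x
          · exact Or.inr (Or.inr (Or.inr (Or.inl h'')))
          by_cases h : 60 * k ≤ u
          · exact Or.inl ⟨⟨h, by omega⟩, hu.2⟩
          by_cases h' : 44 * k ≤ u
          · exact Or.inr (Or.inl ⟨h', by omega⟩)
          refine Or.inr (Or.inr (Or.inl ?_))
          simp only [hR, mem_filter, mem_range]
          exact ⟨by omega, s, hs2, by omega, by omega, hu.2⟩)
      have e3 := hout q (by omega)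
      have e4 := hin s (by omega)
      simp only [Nat.card_Ico, card_empty, card_singleton, card_range] at e1 e2
      obtain ⟨r, hr1, hr2⟩ := exists_inter (A := (Ico (60 * k) x).filter (fun w => H q w))
        (B := (Ico (60 * k) x).filter (fun u => H u s)) (C := Ico (60 * k) x)
        (filter_subset _ _) (filter_subset _ _) (by rw [Nat.card_Ico]; omega)
      simp only [mem_filter, mem_Ico] at hr1 hr2
      exact ⟨by omega, by omega, by omega, Or.inr (Or.inl ⟨q, s, p, r, by omega, by omega,
        by omega, by omega, Or.inl hp.2, Or.inr ⟨rfl, rfl⟩, Or.inl hr1.2, Or.inl hr2.2,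
        Or.inl hs2⟩)⟩
  refine ⟨Q, R, by omega, by omega, ?_⟩
  intro q hq r hr
  simp only [hQ, hR, mem_filter, mem_Ico, mem_range] at hq hr
  obtain ⟨hq1, p, hp1, hp2, hp3, hp4⟩ := hq
  obtain ⟨hr1, s, hs1, hs2, hs3, hs4⟩ := hr
  exact ⟨by omega, by omega, by omega, Or.inr (Or.inr ⟨r, s, p, q, by omega, by omega,
    by omega, by omega, Or.inl hp1, Or.inl hp4, Or.inr ⟨rfl, rfl⟩, Or.inl hs4, Or.inl hs1⟩)⟩

end Pool.Agent.H235Z.Ham
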