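import Mathlib
import Pool.Agent.H235Z.Ham.Pos

/-! Cyclic enumerations, bad edges, exchanges. -/

namespace Pool.Agent.H235Z.Ham

open Finset

/-- cyclic successor on `{0, …, n-1}` -/
def nxt (n i : ℕ) : ℕ := if i + 1 = n then 0 else i + 1

theorem nxt_lt {n i : ℕ} (h : i < n) : nxt n i < n := by unfold nxt; split_ifs <;> omega

theorem nxt_inj {n i j : ℕ} (hi : i < n) (hj : j < n) (h : nxt n i = nxt n j) : i = j := by
  unfold nxt at h; split_ifs at h <;> omega

/-- `f` is injective on `{0, …, n-1}` -/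
def Enum {V : Type} (n : ℕ) (f : ℕ → V) : Prop := ∀ i < n, ∀ j < n, f i = f j → i = j

open Classical in
/-- the set of bad positions -/
noncomputable def badSet {V : Type} (E : V → V → Prop) (n : ℕ) (f : ℕ → V) : Finset ℕ :=
  (range n).filter (fun i => ¬ E (f i) (f (nxt n i)))

theorem mem_badSet {V : Type} {E : V → V → Prop} {n : ℕ} {f : ℕ → V} {i : ℕ} :
    i ∈ badSet E n f ↔ i < n ∧ ¬ E (f i) (f (nxt n i)) := by
  simp [badSet]

theorem reindex {V : Type} {E E' : V → V → Prop} (hE : ∀ u v, E u v → E' u v) {n : ℕ} {f : ℕ → V}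
    (hf : Enum n f) (c : ℕ → ℕ) (hc1 : ∀ i < n, c i < n)
    (hc2 : ∀ i < n, ∀ j < n, c i = c j → i = j) (X : Finset ℕ)
    (hc3 : ∀ i < n, E' (f (c i)) (f (c (nxt n i))) ∨ (c (nxt n i) = nxt n (c i) ∧ c i ∉ X)) :
    Enum n (fun i => f (c i)) ∧
      (badSet E' n (fun i => f (c i))).card ≤ (badSet E n f \ X).card := by
  refine ⟨fun i hi j hj h => hc2 i hi j hj (hf _ (hc1 i hi) _ (hc1 j hj) h), ?_⟩
  refine card_le_card_of_injOn c ?_ ?_
  · intro i hi
    have hi' := mem_badSet.1 (mem_coe.1 hi)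
    rcases hc3 i hi'.1 with h | h
    · exact absurd h hi'.2
    · refine mem_coe.2 (mem_sdiff.2 ⟨mem_badSet.2 ⟨hc1 i hi'.1, fun h' => hi'.2 ?_⟩, h.2⟩)
      show E' (f (c i)) (f (c (nxt n i)))
      rw [h.1]; exact hE _ _ h'
  · intro i hi j hj h
    exact hc2 i (mem_badSet.1 (mem_coe.1 hi)).1 j (mem_badSet.1 (mem_coe.1 hj)).1 h

theorem rotate_last {V : Type} (E : V → V → Prop) {x : ℕ} {f : ℕ → V} (hf : Enum (x + 1) f)
    {z : ℕ} (hz : z < x + 1) :
    ∃ f' : ℕ → V, Enum (x + 1) f' ∧ (badSet E (x + 1) f').card ≤ (badSet E (x + 1) f).card ∧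
      f' x = f z ∧ f' 0 = f (nxt (x + 1) z) := by
  let c : ℕ → ℕ := fun i => if i + z + 1 < x + 1 then i + z + 1 else i + z + 1 - (x + 1)
  have := reindex (E := E) (E' := E) (fun _ _ h => h) hf c
    (fun i hi => by simp only [c]; split_ifs <;> omega)
    (fun i hi j hj h => by simp only [c] at h; split_ifs at h <;> omega) ∅
    (fun i hi => Or.inr ⟨by simp only [c, nxt]; split_ifs <;> omega, by simp⟩)
  refine ⟨fun i => f (c i), this.1, by simpa using this.2, ?_, ?_⟩
  · show f (c x) = f z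
    congr 1; simp only [c]; split_ifs <;> omega
  · show f (c 0) = _
    congr 1; simp only [c, nxt]; split_ifs <;> omega

theorem improve {V : Type} {E E' : V → V → Prop} (hE : ∀ u v, E u v → E' u v) {x : ℕ} {f : ℕ → V}
    (hf : Enum (x + 1) f) (hx : x ∈ badSet E (x + 1) f) {H : ℕ → ℕ → Prop}
    (hH : ∀ u w, H u w → E' (f u) (f (nxt (x + 1) w))) (hP : Pat H x) :
    ∃ f' : ℕ → V, Enum (x + 1) f' ∧
      (badSet E' (x + 1) f').card + 1 ≤ (badSet E (x + 1) f).card := by
  have hcard : (badSet E (x + 1) f \ {x}).card + 1 = (badSet E (x + 1) f).card := by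
    rw [sdiff_singleton_eq_erase, card_erase_add_one hx]
  have key : ∀ c : ℕ → ℕ, (∀ i < x + 1, c i < x + 1) →
      (∀ i < x + 1, ∀ j < x + 1, c i = c j → i = j) →
      (∀ i < x + 1, (∃ u w, H u w ∧ c i = u ∧ c (nxt (x + 1) i) = nxt (x + 1) w) ∨
        (c (nxt (x + 1) i) = nxt (x + 1) (c i) ∧ c i ≠ x)) →
      ∃ f' : ℕ → V, Enum (x + 1) f' ∧
        (badSet E' (x + 1) f').card + 1 ≤ (badSet E (x + 1) f).card := by
    intro c h1 h2 h3
    have := reindex hE hf c h1 h2 {x} (fun i hi => by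
      rcases h3 i hi with ⟨u, w, h, e1, e2⟩ | h
      · left; rw [e1, e2]; exact hH u w h
      · right; exact ⟨h.1, by simpa using h.2⟩)
    exact ⟨_, this.1, by omega⟩
  rcases hP with ⟨p, s, l1, l2, a1, a2, a3⟩ | ⟨q, s, p, r, l1, l2, l3, l4, a1, a2, a3, a4, a5⟩ |
    ⟨r, s, p, q, l1, l2, l3, l4, a1, a2, a3, a4, a5⟩
  · refine key (fun i => if i ≤ p then i else if i ≤ p + (x - s) then i + (s - p)
      else i - (x - s)) (fun i hi => by split_ifs <;> omega)
      (fun i hi j hj h => by split_ifs at h <;> omega) (fun i hi => ?_)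
    by_cases b1 : i = p
    · exact Or.inl ⟨p, s, a2, by split_ifs <;> omega, by simp only [nxt]; split_ifs <;> omega⟩
    by_cases b2 : i = p + (x - s)
    · exact Or.inl ⟨x, p, a1, by split_ifs <;> omega, by simp only [nxt]; split_ifs <;> omega⟩
    by_cases b3 : i = x
    · exact Or.inl ⟨s, x, a3, by split_ifs <;> omega, by simp only [nxt]; split_ifs <;> omega⟩
    exact Or.inr ⟨by simp only [nxt]; split_ifs <;> omega, by split_ifs <;> omega⟩
  · refine key (fun i => if i ≤ q then i else if i ≤ q + (x - r) then i + (r - q)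
      else if i ≤ q + (x - p) then i + p - (q + (x - r))
      else if i ≤ q + (x - s) then i + s - (q + (x - p)) else i - (x - s))
      (fun i hi => by split_ifs <;> omega)
      (fun i hi j hj h => by split_ifs at h <;> omega) (fun i hi => ?_)
    by_cases b1 : i = q
    · exact Or.inl ⟨q, r, a3, by split_ifs <;> omega, by simp only [nxt]; split_ifs <;> omega⟩
    by_cases b2 : i = q + (x - r)
    · exact Or.inl ⟨x, p, a1, by split_ifs <;> omega, by simp only [nxt]; split_ifs <;> omega⟩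
    by_cases b3 : i = q + (x - p)
    · exact Or.inl ⟨r, s, a4, by split_ifs <;> omega, by simp only [nxt]; split_ifs <;> omega⟩
    by_cases b4 : i = q + (x - s)
    · exact Or.inl ⟨p, q, a2, by split_ifs <;> omega, by simp only [nxt]; split_ifs <;> omega⟩
    by_cases b5 : i = x
    · exact Or.inl ⟨s, x, a5, by split_ifs <;> omega, by simp only [nxt]; split_ifs <;> omega⟩
    exact Or.inr ⟨by simp only [nxt]; split_ifs <;> omega, by split_ifs <;> omega⟩
  · refine key (fun i => if i ≤ r then i else if i ≤ r + (p - s) then i + (s - r)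
      else if i ≤ r + (p - s) + (x - q) then i + q - (r + (p - s))
      else if i ≤ r + (x - s) then i + p - (r + (p - s) + (x - q)) else i - (x - s))
      (fun i hi => by split_ifs <;> omega)
      (fun i hi j hj h => by split_ifs at h <;> omega) (fun i hi => ?_)
    by_cases b1 : i = r
    · exact Or.inl ⟨r, s, a4, by split_ifs <;> omega, by simp only [nxt]; split_ifs <;> omega⟩
    by_cases b2 : i = r + (p - s)
    · exact Or.inl ⟨p, q, a2, by split_ifs <;> omega, by simp only [nxt]; split_ifs <;> omega⟩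
    by_cases b3 : i = r + (p - s) + (x - q)
    · exact Or.inl ⟨x, p, a1, by split_ifs <;> omega, by simp only [nxt]; split_ifs <;> omega⟩
    by_cases b4 : i = r + (x - s)
    · exact Or.inl ⟨q, r, a3, by split_ifs <;> omega, by simp only [nxt]; split_ifs <;> omega⟩
    by_cases b5 : i = x
    · exact Or.inl ⟨s, x, a5, by split_ifs <;> omega, by simp only [nxt]; split_ifs <;> omega⟩
    exact Or.inr ⟨by simp only [nxt]; split_ifs <;> omega, by split_ifs <;> omega⟩

theorem Enum.surj {V : Type} [Fintype V] {n : ℕ} (hn : Fintype.card V = n) {f : ℕ → V}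
    (hf : Enum n f) (v : V) : ∃ i < n, f i = v := by
  classical
  have h1 : ((range n).image f).card = n := by
    rw [card_image_of_injOn, card_range]
    intro i hi j hj h
    exact hf i (mem_range.1 hi) j (mem_range.1 hj) h
  have h2 : (range n).image f = univ := eq_univ_of_card _ (by rw [h1, hn])
  have h3 : v ∈ (range n).image f := by rw [h2]; exact mem_univ v
  obtain ⟨i, hi, e⟩ := mem_image.1 h3
  exact ⟨i, mem_range.1 hi, e⟩

theorem Enum.card_filter {V : Type} [Fintype V] {n : ℕ} (hn : Fintype.card V = n) {f : ℕ → V}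
    (hf : Enum n f) (P : V → Prop) [DecidablePred P] :
    (univ.filter P).card ≤ ((range n).filter (fun i => P (f i))).card := by
  classical
  refine le_trans (card_le_card (t := ((range n).filter (fun i => P (f i))).image f) ?_)
    card_image_le
  intro v hv
  obtain ⟨i, hi, e⟩ := hf.surj hn v
  exact mem_image.2 ⟨i, mem_filter.2 ⟨mem_range.2 hi, e ▸ (mem_filter.1 hv).2⟩, e⟩

theorem Enum.nxt {V : Type} {n : ℕ} {f : ℕ → V} (hf : Enum n f) :
    Enum n (fun i => f (nxt n i)) := fun _ hi _ hj h =>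
  nxt_inj hi hj (hf _ (nxt_lt hi) _ (nxt_lt hj) h)

/-- the least number of bad positions of a cyclic enumeration -/
noncomputable def gap {V : Type} (E : V → V → Prop) (n : ℕ) : ℕ :=
  sInf {b | ∃ f : ℕ → V, Enum n f ∧ (badSet E n f).card = b}

theorem gap_le {V : Type} (E : V → V → Prop) {n : ℕ} {f : ℕ → V} (hf : Enum n f) :
    gap E n ≤ (badSet E n f).card := Nat.sInf_le ⟨f, hf, rfl⟩

theorem gap_spec {V : Type} [Fintype V] [Nonempty V] (E : V → V → Prop) {n : ℕ}
    (hn : Fintype.card V = n) : ∃ f : ℕ → V, Enum n f ∧ (badSet E n f).card = gap E n := by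
  have : {b | ∃ f : ℕ → V, Enum n f ∧ (badSet E n f).card = b}.Nonempty := by
    let e := Fintype.equivFinOfCardEq hn
    refine ⟨_, fun i => if h : i < n then e.symm ⟨i, h⟩ else Classical.arbitrary V, ?_, rfl⟩
    intro i hi j hj h
    simp only [hi, hj, dif_pos] at h
    simpa using e.symm.injective h
  exact Nat.sInf_mem this

theorem gap_mono {V : Type} [Fintype V] [Nonempty V] {E E' : V → V → Prop}
    (hE : ∀ u v, E u v → E' u v) {n : ℕ} (hn : Fintype.card V = n) : gap E' n ≤ gap E n := by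
  obtain ⟨f, hf, e⟩ := gap_spec E hn
  rw [← e]
  refine le_trans (gap_le E' hf) (card_le_card fun i hi => ?_)
  rw [mem_badSet] at hi ⊢
  exact ⟨hi.1, fun h => hi.2 (hE _ _ h)⟩

/-- The booster lemma. -/
theorem boosters {V : Type} [Fintype V] [DecidableEq V] (E : V → V → Prop) [DecidableRel E]
    {n k : ℕ} (hn : Fintype.card V = n) (hk : 1 ≤ k) (h1 : 100 * k ≤ n) (h2 : n ≤ 101 * k)
    (hout : ∀ u, 49 * k ≤ (univ.filter (fun v => E u v)).card)
    (hin : ∀ v, 49 * k ≤ (univ.filter (fun u => E u v)).card) (hg : 0 < gap E n) :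
    ∃ B : Finset (V × V), k ^ 2 ≤ B.card ∧ ∀ e ∈ B, e.1 ≠ e.2 ∧
      gap (fun u v => E u v ∨ (u, v) = e) n + 1 ≤ gap E n := by
  obtain ⟨x, rfl⟩ : ∃ x, n = x + 1 := ⟨n - 1, by omega⟩
  haveI : Nonempty V := Fintype.card_pos_iff.1 (by omega)
  obtain ⟨f0, hf0, e0⟩ := gap_spec E hn
  obtain ⟨z, hz⟩ : (badSet E (x + 1) f0).Nonempty := by rw [← card_pos]; omega
  rw [mem_badSet] at hz
  obtain ⟨f, hf, hle, hfx, hf0'⟩ := rotate_last E hf0 hz.1
  have hnx : nxt (x + 1) x = 0 := by simp [nxt]
  have hx : x ∈ badSet E (x + 1) f := by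
    rw [mem_badSet, hnx, hfx, hf0']; exact ⟨by omega, hz.2⟩
  obtain ⟨X, Y, hX, hY, hXY⟩ := pos_lemma (fun u w => E (f u) (f (nxt (x + 1) w))) x k hk h1 h2
    (fun u _ => le_trans (hout (f u)) (hf.nxt.card_filter hn (fun v => E (f u) v)))
    (fun w _ => le_trans (hin _) (hf.card_filter hn (fun u => E u (f (nxt (x + 1) w)))))
    (mem_badSet.1 hx).2
  obtain ⟨a0, ha0⟩ : X.Nonempty := by rw [← card_pos]; omega
  obtain ⟨b0, hb0⟩ : Y.Nonempty := by rw [← card_pos]; omega
  refine ⟨(X ×ˢ Y).image (fun t => (f t.1, f (nxt (x + 1) t.2))), ?_, ?_⟩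
  · rw [card_image_of_injOn, card_product, sq]
    · exact Nat.mul_le_mul hX hY
    · rintro ⟨a, b⟩ hab ⟨a', b'⟩ hab' h
      simp only [coe_product, Set.mem_prod, mem_coe] at hab hab'
      simp only [Prod.mk.injEq] at h ⊢
      have g1 := hXY a hab.1 b hab.2
      have g2 := hXY a' hab'.1 b' hab'.2
      exact ⟨hf _ (by have := g1.1; omega) _ (by have := g2.1; omega) h.1,
        hf.nxt _ (by have := g1.2.1; omega) _ (by have := g2.2.1; omega) h.2⟩
  · intro e he
    obtain ⟨⟨a, b⟩, hab, rfl⟩ := mem_image.1 he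
    rw [mem_product] at hab
    obtain ⟨g1, g2, g3, g4⟩ := hXY a hab.1 b hab.2
    constructor
    · intro h
      have := hf _ (by omega) _ (nxt_lt (by omega)) h
      unfold nxt at this
      split_ifs at this <;> omega
    · obtain ⟨f', hf', hle'⟩ := improve (E := E)
        (E' := fun u v => E u v ∨ (u, v) = (f a, f (nxt (x + 1) b))) (fun _ _ h => Or.inl h) hf hx
        (fun u w h => by
          rcases h with h | ⟨rfl, rfl⟩
          · exact Or.inl h
          · exact Or.inr rfl) g4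
      have := gap_le (fun u v => E u v ∨ (u, v) = (f a, f (nxt (x + 1) b))) hf'
      simp only at this ⊢
      omega

end Pool.Agent.H235Z.Ham
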