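import Mathlib
import Pool.Agent.H235Z.Ham.Enum

/-! The theorem of Ghouila-Houri (semidegree form) and its deficiency version. -/

namespace Pool.Agent.H235Z.Ham

open Finset

theorem Enum.le_card {V : Type} [Fintype V] {l : ℕ} {c : ℕ → V} (h : Enum l c) :
    l ≤ Fintype.card V := by
  classical
  have h1 : ((range l).image c).card = l := by
    rw [card_image_of_injOn, card_range]
    intro i hi j hj e
    exact h i (mem_range.1 hi) j (mem_range.1 hj) e
  rw [← h1]; exact card_le_univ _

/-- a directed cycle of length `l` -/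
def IsCyc {V : Type} (E : V → V → Prop) (l : ℕ) (c : ℕ → V) : Prop :=
  Enum l c ∧ ∀ i < l, E (c i) (c (nxt l i))

/-- a directed path with `m` vertices avoiding `C` -/
def IsPath {V : Type} (E : V → V → Prop) (C : Set V) (m : ℕ) (p : ℕ → V) : Prop :=
  Enum m p ∧ (∀ i, i + 1 < m → E (p i) (p (i + 1))) ∧ ∀ i < m, p i ∉ C

theorem exists_max_nat (P : ℕ → Prop) (N : ℕ) (h0 : ∃ a, P a) (hN : ∀ a, P a → a ≤ N) :
    ∃ a, P a ∧ ∀ b, P b → b ≤ a := by
  classical
  obtain ⟨a0, ha0⟩ := h0
  refine ⟨Nat.findGreatest P N, Nat.findGreatest_spec (hN a0 ha0) ha0, fun b hb => ?_⟩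
  exact Nat.le_findGreatest (hN b hb) hb

theorem cyc_of_path {V : Type} {E : V → V → Prop} {C : Set V} {m : ℕ} {p : ℕ → V}
    (hp : IsPath E C m p) {i j : ℕ} (hij : i ≤ j) (hj : j < m) (h : E (p j) (p i)) :
    IsCyc E (j - i + 1) (fun t => p (i + t)) := by
  refine ⟨fun a ha b hb e => ?_, fun t ht => ?_⟩
  · have := hp.1 _ (by omega) _ (by omega) e
    omega
  · show E (p (i + t)) (p (i + nxt (j - i + 1) t))
    unfold nxt
    split_ifs with h1
    · rw [show i + t = j by omega]; exact h
    · exact hp.2.1 (i + t) (by omega)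

theorem cyc_replace {V : Type} {E : V → V → Prop} {C : Set V} {l m : ℕ} {c p : ℕ → V}
    (hc : IsCyc E l c) (hC : ∀ j < l, c j ∈ C) (hp : IsPath E C m p) (hm : 1 ≤ m) {a t : ℕ}
    (hat : a < t) (htl : t ≤ l) (h1 : E (c a) (p 0))
    (h2 : E (p (m - 1)) (c (if t = l then 0 else t))) :
    ∃ c', IsCyc E (a + 1 + m + (l - t)) c' := by
  refine ⟨fun i => if i ≤ a then c i else if i ≤ a + m then p (i - (a + 1))
    else c (i - (a + m + 1) + t), fun i hi j hj e => ?_, fun i hi => ?_⟩
  · simp only at e
    split_ifs at e with g1 g2 g3 g4 g5 g6 g7 g8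
    · exact hc.1 _ (by omega) _ (by omega) e
    · exact absurd (e ▸ hC _ (by omega)) (hp.2.2 _ (by omega))
    · have := hc.1 _ (by omega) _ (by omega) e; omega
    · exact absurd (e.symm ▸ hC _ (by omega)) (hp.2.2 _ (by omega))
    · have := hp.1 _ (by omega) _ (by omega) e; omega
    · exact absurd (e.symm ▸ hC _ (by omega)) (hp.2.2 _ (by omega))
    · have := hc.1 _ (by omega) _ (by omega) e; omega
    · exact absurd (e ▸ hC _ (by omega)) (hp.2.2 _ (by omega))
    · have := hc.1 _ (by omega) _ (by omega) e; omega
  · simp only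
    by_cases g1 : i < a
    · have e1 : nxt (a + 1 + m + (l - t)) i = i + 1 := by unfold nxt; split_ifs <;> omega
      have e2 : nxt l i = i + 1 := by unfold nxt; split_ifs <;> omega
      rw [e1, if_pos (by omega), if_pos (by omega), ← e2]
      exact hc.2 i (by omega)
    by_cases g2 : i = a
    · have e1 : nxt (a + 1 + m + (l - t)) i = a + 1 := by unfold nxt; split_ifs <;> omega
      rw [e1, if_pos (by omega), if_neg (by omega), if_pos (by omega), g2, Nat.sub_self]
      exact h1
    by_cases g3 : i < a + m
    · have e1 : nxt (a + 1 + m + (l - t)) i = i + 1 := by unfold nxt; split_ifs <;> omega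
      rw [e1, if_neg (by omega), if_pos (by omega), if_neg (by omega), if_pos (by omega),
        show i + 1 - (a + 1) = i - (a + 1) + 1 by omega]
      exact hp.2.1 _ (by omega)
    by_cases g4 : i = a + m
    · rw [if_neg (by omega), if_pos (by omega), show i - (a + 1) = m - 1 by omega]
      by_cases g5 : t = l
      · have e1 : nxt (a + 1 + m + (l - t)) i = 0 := by unfold nxt; split_ifs <;> omega
        rw [e1, if_pos (by omega)]
        rwa [if_pos g5] at h2
      · have e1 : nxt (a + 1 + m + (l - t)) i = a + m + 1 := by unfold nxt; split_ifs <;> omega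
        rw [e1, if_neg (by omega), if_neg (by omega), Nat.sub_self, Nat.zero_add]
        rwa [if_neg g5] at h2
    · rw [if_neg (by omega), if_neg (by omega)]
      have h3 := hc.2 (i - (a + m + 1) + t) (by omega)
      by_cases g5 : i + 1 = a + 1 + m + (l - t)
      · have e1 : nxt (a + 1 + m + (l - t)) i = 0 := by unfold nxt; split_ifs <;> omega
        have e2 : nxt l (i - (a + m + 1) + t) = 0 := by unfold nxt; split_ifs <;> omega
        rw [e1, if_pos (by omega)]
        rwa [e2] at h3
      · have e1 : nxt (a + 1 + m + (l - t)) i = i + 1 := by unfold nxt; split_ifs <;> omega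
        have e2 : nxt l (i - (a + m + 1) + t) = i + 1 - (a + m + 1) + t := by
          unfold nxt; split_ifs <;> omega
        rw [e1, if_neg (by omega), if_neg (by omega)]
        rwa [e2] at h3

theorem cyc_rotate {V : Type} {E : V → V → Prop} {l : ℕ} {c : ℕ → V} (hc : IsCyc E l c) {b : ℕ}
    (hb : b < l) : ∃ c', IsCyc E l c' ∧ c' 0 = c b ∧ (∀ j < l, ∃ i < l, c' j = c i) ∧
      (∀ i < l, ∃ j < l, c' j = c i) := by
  refine ⟨fun i => c (if i + b < l then i + b else i + b - l), ⟨fun i hi j hj e => ?_,
    fun i hi => ?_⟩, ?_, fun j hj => ⟨_, ?_, rfl⟩, fun i hi => ?_⟩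
  · have := hc.1 _ (by split_ifs <;> omega) _ (by split_ifs <;> omega) e
    split_ifs at this <;> omega
  · have := hc.2 (if i + b < l then i + b else i + b - l) (by split_ifs <;> omega)
    have e : nxt l (if i + b < l then i + b else i + b - l)
        = (if nxt l i + b < l then nxt l i + b else nxt l i + b - l) := by
      unfold nxt; split_ifs <;> omega
    rwa [e] at this
  · simp [hb]
  · split_ifs <;> omega
  · refine ⟨if b ≤ i then i - b else i + l - b, by split_ifs <;> omega, ?_⟩
    show c _ = c i
    congr 1
    split_ifs <;> omega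

theorem card_cover {V : Type} [Fintype V] (P : V → Prop) [DecidablePred P] (c p : ℕ → V)
    (A B : Finset ℕ) (h : ∀ v, P v → (∃ j ∈ A, c j = v) ∨ ∃ i ∈ B, p i = v) :
    (univ.filter P).card ≤ A.card + B.card := by
  classical
  have h1 : univ.filter P ⊆ A.image c ∪ B.image p := fun v hv => by
    rcases h v (mem_filter.1 hv).2 with h | h
    · exact mem_union_left _ (mem_image.2 h)
    · exact mem_union_right _ (mem_image.2 h)
  have h2 := card_le_card h1
  have h3 := card_union_le (A.image c) (B.image p)
  have h4 := card_image_le (s := A) (f := c)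
  have h5 := card_image_le (s := B) (f := p)
  omega

theorem ghouila_houri {V : Type} [Fintype V] (E : V → V → Prop) [DecidableRel E]
    (hirr : ∀ v, ¬ E v v) {n k : ℕ} (hn : Fintype.card V = n) (hn1 : 1 ≤ n) (hk : n ≤ 2 * k)
    (hout : ∀ u, k ≤ (univ.filter (fun v => E u v)).card)
    (hin : ∀ v, k ≤ (univ.filter (fun u => E u v)).card) : ∃ c, IsCyc E n c := by
  classical
  have hne : Nonempty V := Fintype.card_pos_iff.1 (by omega)
  obtain ⟨l, ⟨c0, hc0⟩, hlmax⟩ := exists_max_nat (fun l => ∃ c, IsCyc E l c) n
    ⟨0, fun _ => Classical.arbitrary V, fun i hi => by omega, fun i hi => by omega⟩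
    (fun a ⟨c, hc⟩ => hn ▸ hc.1.le_card)
  by_cases hl : l = n
  · exact ⟨c0, hl ▸ hc0⟩
  exfalso
  have hln : l ≤ n := hn ▸ hc0.1.le_card
  set C : Set V := {v | ∃ j < l, c0 j = v} with hC
  obtain ⟨v0, hv0⟩ : ∃ v, v ∉ C := by
    by_contra hc
    push Not at hc
    have := card_cover (fun _ : V => True) c0 c0 (range l) ∅ (fun v _ => Or.inl (by
      obtain ⟨j, hj, e⟩ := hc v
      exact ⟨j, mem_range.2 hj, e⟩))
    simp only [filter_true, card_univ, card_range, card_empty] at this
    omega
  obtain ⟨m, ⟨p, hp⟩, hmmax⟩ := exists_max_nat (fun m => ∃ p, IsPath E C m p) n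
    ⟨0, fun _ => v0, fun i hi => by omega, fun i hi => by omega, fun i hi => by omega⟩
    (fun a ⟨p, hp⟩ => hn ▸ hp.1.le_card)
  have hm1 : 1 ≤ m := hmmax 1 ⟨fun _ => v0, fun i hi j hj _ => by omega, fun i hi => by omega,
    fun _ _ => hv0⟩
  have hlm : l + m ≤ n := by
    have : Enum (l + m) (fun i => if i < l then c0 i else p (i - l)) := by
      intro i hi j hj e
      simp only at e
      split_ifs at e with g1 g2 g3
      · exact hc0.1 _ g1 _ g2 e
      · exact absurd ⟨i, g1, e⟩ (hp.2.2 _ (by omega))
      · exact absurd ⟨j, g3, e.symm⟩ (hp.2.2 _ (by omega))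
      · have := hp.1 _ (by omega) _ (by omega) e; omega
    exact hn ▸ this.le_card
  have hinP : ∀ v, E v (p 0) → v ∈ C ∨ ∃ i ∈ Ico 1 (min m l), p i = v := by
    intro v hv
    by_cases h1 : v ∈ C
    · exact Or.inl h1
    right
    by_cases h2 : ∃ i < m, p i = v
    · obtain ⟨i, hi, e⟩ := h2
      have h3 := hlmax _ ⟨_, cyc_of_path hp (Nat.zero_le i) hi (e ▸ hv)⟩
      have h4 : i ≠ 0 := by
        rintro rfl
        exact hirr v (by rw [← e] at hv ⊢; exact hv)
      exact ⟨i, mem_Ico.2 ⟨by omega, by omega⟩, e⟩
    · exfalso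
      push Not at h2
      have := hmmax (m + 1) ⟨fun i => if i = 0 then v else p (i - 1), fun i hi j hj e => by
        simp only at e
        split_ifs at e with g1 g2 g3
        · omega
        · exact absurd e.symm (h2 _ (by omega))
        · exact absurd e (h2 _ (by omega))
        · have := hp.1 _ (by omega) _ (by omega) e; omega,
        fun i hi => by
          simp only
          rw [if_neg (Nat.succ_ne_zero i), Nat.add_sub_cancel]
          split_ifs with g1
          · rw [g1]; exact hv
          · have := hp.2.1 (i - 1) (by omega)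
            rwa [show i - 1 + 1 = i by omega] at this,
        fun i hi => by
          simp only
          split_ifs with g1
          · exact h1
          · exact hp.2.2 _ (by omega)⟩
      omega
  have houtP : ∀ v, E (p (m - 1)) v → v ∈ C ∨ ∃ i ∈ Ico (m - l) (m - 1), p i = v := by
    intro v hv
    by_cases h1 : v ∈ C
    · exact Or.inl h1
    right
    by_cases h2 : ∃ i < m, p i = v
    · obtain ⟨i, hi, e⟩ := h2
      have h3 := hlmax _ ⟨_, cyc_of_path hp (show i ≤ m - 1 by omega) (by omega) (e ▸ hv)⟩
      have h4 : i ≠ m - 1 := by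
        rintro rfl
        exact hirr v (by rw [← e] at hv ⊢; exact hv)
      exact ⟨i, mem_Ico.2 ⟨by omega, by omega⟩, e⟩
    · exfalso
      push Not at h2
      have := hmmax (m + 1) ⟨fun i => if i < m then p i else v, fun i hi j hj e => by
        simp only at e
        split_ifs at e with g1 g2 g3
        · exact hp.1 _ g1 _ g2 e
        · exact absurd e (h2 _ g1)
        · exact absurd e.symm (h2 _ g3)
        · omega,
        fun i hi => by
          simp only
          rw [if_pos (by omega)]
          split_ifs with g1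
          · exact hp.2.1 i g1
          · rw [show i = m - 1 by omega]; exact hv,
        fun i hi => by
          simp only
          split_ifs with g1
          · exact hp.2.2 _ g1
          · exact h1⟩
      omega
  obtain ⟨b, hb, hbE⟩ : ∃ b < l, E (p (m - 1)) (c0 b) := by
    by_contra hc
    push Not at hc
    have h1 := card_cover (fun v => E (p (m - 1)) v) c0 p ∅ (Ico (m - l) (m - 1)) (fun v hv => by
      rcases houtP v hv with ⟨j, hj, e⟩ | h
      · exact absurd (e ▸ hv) (hc j hj)
      · exact Or.inr h)
    have h2 := hout (p (m - 1))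
    simp only [card_empty, Nat.card_Ico] at h1
    omega
  obtain ⟨c, hc, hc00, hc1, hc2⟩ := cyc_rotate hc0 hb
  have hcC : ∀ j < l, c j ∈ C := fun j hj => by
    obtain ⟨i, hi, e⟩ := hc1 j hj
    exact ⟨i, hi, e.symm⟩
  have hCc : ∀ v ∈ C, ∃ j < l, c j = v := by
    rintro v ⟨i, hi, e⟩
    obtain ⟨j, hj, e'⟩ := hc2 i hi
    exact ⟨j, hj, e'.trans e⟩
  set S := (range l).filter (fun j => E (c j) (p 0)) with hS
  set T := (range l).filter (fun j => E (p (m - 1)) (c j)) with hT
  have hSc := card_cover (fun v => E v (p 0)) c p S (Ico 1 (min m l)) (fun v hv => by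
    rcases hinP v hv with h | h
    · obtain ⟨j, hj, e⟩ := hCc v h
      exact Or.inl ⟨j, mem_filter.2 ⟨mem_range.2 hj, e ▸ hv⟩, e⟩
    · exact Or.inr h)
  have hTc := card_cover (fun v => E (p (m - 1)) v) c p T (Ico (m - l) (m - 1)) (fun v hv => by
    rcases houtP v hv with h | h
    · obtain ⟨j, hj, e⟩ := hCc v h
      exact Or.inl ⟨j, mem_filter.2 ⟨mem_range.2 hj, e ▸ hv⟩, e⟩
    · exact Or.inr h)
  have h3 := hin (p 0)
  have h4 := hout (p (m - 1))
  simp only [Nat.card_Ico] at hSc hTc
  have hSne : S.Nonempty := by rw [← card_pos]; omega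
  have hrep : ∀ a ∈ S, ∀ t, a < t → t ≤ l → t ≤ a + m →
      ¬ E (p (m - 1)) (c (if t = l then 0 else t)) := by
    intro a ha t h1 h2 h3 h4
    have := hlmax _ (cyc_replace hc hcC hp hm1 h1 h2 (mem_filter.1 ha).2 h4)
    omega
  have hlt : ∀ a ∈ S, a + m < l := by
    intro a ha
    by_contra h
    have ha' := mem_range.1 (mem_filter.1 ha).1
    exact hrep a ha l ha' le_rfl (by omega) (by rw [if_pos rfl, hc00]; exact hbE)
  have hnT : ∀ a ∈ S, ∀ t, a < t → t ≤ a + m → t ∉ T := by
    intro a ha t h1 h2 h3
    have := hlt a ha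
    exact hrep a ha t h1 (by omega) h2 (by rw [if_neg (by omega)]; exact (mem_filter.1 h3).2)
  set a0 := S.max' hSne with ha0
  have ha0S : a0 ∈ S := max'_mem _ _
  have hX : Disjoint (S.image (· + 1)) (Ioc (a0 + 1) (a0 + m)) := by
    rw [disjoint_left]
    intro t ht ht'
    obtain ⟨a, ha, rfl⟩ := mem_image.1 ht
    have := le_max' S a ha
    rw [mem_Ioc] at ht'
    omega
  have hXT : Disjoint (S.image (· + 1) ∪ Ioc (a0 + 1) (a0 + m)) T := by
    rw [disjoint_left]
    intro t ht
    rcases mem_union.1 ht with h | h
    · obtain ⟨a, ha, rfl⟩ := mem_image.1 h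
      exact hnT a ha _ (by omega) (by omega)
    · rw [mem_Ioc] at h
      exact hnT a0 ha0S _ (by omega) (by omega)
  have hsub : (S.image (· + 1) ∪ Ioc (a0 + 1) (a0 + m)) ∪ T ⊆ range l := by
    refine union_subset (union_subset ?_ ?_) (filter_subset _ _)
    · intro t ht
      obtain ⟨a, ha, rfl⟩ := mem_image.1 ht
      have := hlt a ha
      exact mem_range.2 (by omega)
    · intro t ht
      have := hlt a0 ha0S
      rw [mem_Ioc] at ht
      exact mem_range.2 (by omega)
  have h5 := card_le_card hsub
  rw [card_union_of_disjoint hXT, card_union_of_disjoint hX,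
    card_image_of_injective _ (add_left_injective 1), Nat.card_Ioc, card_range] at h5
  omega

theorem gap_le_deficiency (t : ℕ) : ∀ {V : Type} [Fintype V] (E : V → V → Prop) [DecidableRel E]
    (_ : ∀ v, ¬ E v v) {n k : ℕ} (_ : Fintype.card V = n) (_ : 1 ≤ n) (_ : n ≤ 2 * k + t)
    (_ : ∀ u, k ≤ (univ.filter (fun v => E u v)).card)
    (_ : ∀ v, k ≤ (univ.filter (fun u => E u v)).card), gap E n ≤ t := by
  induction t with
  | zero =>
    intro V _ E _ hirr n k hn hn1 hk hout hin
    obtain ⟨c, hc⟩ := ghouila_houri E hirr hn hn1 hk hout hin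
    refine le_trans (gap_le E hc.1) ?_
    rw [Nat.le_zero, card_eq_zero, eq_empty_iff_forall_notMem]
    intro i hi
    rw [mem_badSet] at hi
    exact hi.2 (hc.2 i hi.1)
  | succ t ih =>
    intro V _ E _ hirr n k hn hn1 hk hout hin
    classical
    have hne : Nonempty V := Fintype.card_pos_iff.1 (by omega)
    obtain ⟨v0⟩ := hne
    let E' : Option V → Option V → Prop := fun a b =>
      match a, b with
      | none, none => False
      | none, some _ => True
      | some _, none => True
      | some u, some v => E u v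
    have hkn : k + 1 ≤ n := by
      have h1 := hout v0
      have h2 : univ.filter (fun v => E v0 v) ⊆ univ.erase v0 := fun v hv =>
        mem_erase.2 ⟨fun e => hirr v0 (e ▸ (mem_filter.1 hv).2), mem_univ _⟩
      have h3 := card_le_card h2
      rw [card_erase_of_mem (mem_univ _), card_univ] at h3
      omega
    have hnone : ∀ P : Option V → Prop, [DecidablePred P] → (∀ v, P (some v)) →
        k + 1 ≤ (univ.filter P).card := by
      intro P _ hP
      have h1 : univ.image some ⊆ univ.filter P := fun a ha => by
        obtain ⟨v, -, rfl⟩ := mem_image.1 ha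
        exact mem_filter.2 ⟨mem_univ _, hP v⟩
      have h2 := card_le_card h1
      rw [card_image_of_injective _ (Option.some_injective V), card_univ] at h2
      omega
    have hsome : ∀ (P : Option V → Prop) (Q : V → Prop), [DecidablePred P] → [DecidablePred Q] →
        P none → (∀ v, Q v → P (some v)) → k ≤ (univ.filter Q).card →
        k + 1 ≤ (univ.filter P).card := by
      intro P Q _ _ h0 hP hQ
      have h1 : insert none ((univ.filter Q).image some) ⊆ univ.filter P := fun a ha => by
        rcases mem_insert.1 ha with rfl | ha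
        · exact mem_filter.2 ⟨mem_univ _, h0⟩
        · obtain ⟨v, hv, rfl⟩ := mem_image.1 ha
          exact mem_filter.2 ⟨mem_univ _, hP v (mem_filter.1 hv).2⟩
      have h2 := card_le_card h1
      rw [card_insert_of_notMem (by simp), card_image_of_injective _ (Option.some_injective V)]
        at h2
      omega
    have hcard : Fintype.card (Option V) = n + 1 := by rw [Fintype.card_option, hn]
    have h := ih E' (fun a => by cases a <;> simp [E', hirr]) (n := n + 1) (k := k + 1) hcard
      (by omega) (by omega)
      (fun a => by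
        cases a with
        | none => exact hnone _ (fun v => trivial)
        | some u => exact hsome _ (fun v => E u v) trivial (fun v h => h) (hout u))
      (fun a => by
        cases a with
        | none => exact hnone _ (fun v => trivial)
        | some u => exact hsome _ (fun v => E v u) trivial (fun v h => h) (hin u))
    obtain ⟨f0, hf0, e0⟩ := gap_spec E' hcard
    obtain ⟨z, hz, ez⟩ := hf0.surj hcard none
    obtain ⟨f, hf, hle, hfx, -⟩ := rotate_last E' hf0 hz
    rw [ez] at hfx
    have hsm : ∀ i < n, f i = some ((f i).getD v0) := by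
      intro i hi
      cases h : f i with
      | none => have := hf i (by omega) n (by omega) (h.trans hfx.symm); omega
      | some v => rfl
    have hg : Enum n (fun i => (f i).getD v0) := by
      intro i hi j hj e
      refine hf i (by omega) j (by omega) ?_
      rw [hsm i hi, hsm j hj]
      exact congrArg some e
    refine le_trans (gap_le E hg) ?_
    have hsub : badSet E n (fun i => (f i).getD v0) ⊆ insert (n - 1) (badSet E' (n + 1) f) := by
      intro i hi
      rw [mem_badSet] at hi
      by_cases h1 : i = n - 1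
      · rw [h1]; exact mem_insert_self _ _
      refine mem_insert_of_mem (mem_badSet.2 ⟨by omega, fun h2 => hi.2 ?_⟩)
      have e1 : nxt (n + 1) i = i + 1 := by unfold nxt; split_ifs <;> omega
      have e2 : nxt n i = i + 1 := by unfold nxt; split_ifs <;> omega
      rw [e1, hsm i hi.1, hsm (i + 1) (by omega)] at h2
      rw [e2]
      exact h2
    have h3 := card_le_card hsub
    have h4 := card_insert_le (n - 1) (badSet E' (n + 1) f)
    omega

end Pool.Agent.H235Z.Ham
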