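import Mathlib

/-! Layer double counting for random subsets. -/

namespace Pool.Agent.H235Z.Ham

open Finset

variable {α : Type} [DecidableEq α]

theorem layer_dc (U : Finset α) (m : ℕ) (F : Finset α → ℝ) :
    ∑ S ∈ powersetCard m U, ∑ e ∈ U \ S, F (insert e S)
      = (m + 1) * ∑ T ∈ powersetCard (m + 1) U, F T := by
  have h1 : (m + 1 : ℝ) * ∑ T ∈ powersetCard (m + 1) U, F T
      = ∑ T ∈ powersetCard (m + 1) U, ∑ _e ∈ T, F T := by
    rw [mul_sum]
    refine sum_congr rfl fun T hT => ?_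
    rw [sum_const, (mem_powersetCard.1 hT).2, nsmul_eq_mul]; push_cast; ring
  rw [h1, sum_sigma', sum_sigma']
  refine sum_bij' (fun x _ => ⟨insert x.2 x.1, x.2⟩) (fun y _ => ⟨y.1.erase y.2, y.2⟩)
    ?_ ?_ ?_ ?_ ?_
  · rintro ⟨S, e⟩ h
    simp only [mem_sigma, mem_powersetCard, mem_sdiff] at h ⊢
    exact ⟨⟨insert_subset h.2.1 h.1.1, by rw [card_insert_of_notMem h.2.2, h.1.2]⟩,
      mem_insert_self _ _⟩
  · rintro ⟨T, e⟩ h
    simp only [mem_sigma, mem_powersetCard, mem_sdiff] at h ⊢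
    exact ⟨⟨(erase_subset _ _).trans h.1.1, by rw [card_erase_of_mem h.2, h.1.2]; rfl⟩,
      h.1.1 h.2, notMem_erase _ _⟩
  · rintro ⟨S, e⟩ h
    simp only [mem_sigma, mem_powersetCard, mem_sdiff] at h
    simp only [erase_insert h.2.2]
  · rintro ⟨T, e⟩ h
    simp only [mem_sigma, mem_powersetCard] at h
    simp only [insert_erase h.2]
  · rintro ⟨S, e⟩ _
    rfl

theorem layer_bound (U : Finset α) (g : Finset α → ℕ) (K : ℕ)
    (hmono : ∀ S ⊆ U, ∀ e, g (insert e S) ≤ g S)
    (hboost : ∀ S ⊆ U, 0 < g S → K ≤ ((U \ S).filter (fun e => g (insert e S) + 1 ≤ g S)).card)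
    (m : ℕ) (hm : m ≤ U.card) :
    (K : ℝ) * (m + 1) * ∑ S ∈ powersetCard m U, (if 0 < g S then (1 : ℝ) else 0)
      ≤ U.card * g ∅ * U.card.choose m := by
  set N := U.card with hN
  let A : ℕ → ℝ := fun m => ∑ S ∈ powersetCard m U, (g S : ℝ)
  let B : ℕ → ℝ := fun m => ∑ S ∈ powersetCard m U, (if 0 < g S then (1 : ℝ) else 0)
  have hA0 : ∀ m, 0 ≤ A m := fun m => sum_nonneg fun S _ => by positivity
  have hB0 : ∀ m, 0 ≤ B m := fun m => sum_nonneg fun S _ => by split_ifs <;> norm_num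
  have hcard : ∀ m, m ≤ N → ∀ S ∈ powersetCard m U, ((U \ S).card : ℝ) = N - m := by
    intro m hm S hS
    rw [mem_powersetCard] at hS
    rw [card_sdiff_of_subset hS.1, hS.2, Nat.cast_sub hm]
  have h1 : ∀ m, m ≤ N → (m + 1) * A (m + 1) + K * B m ≤ (N - m) * A m := by
    intro m hm
    rw [← layer_dc U m (fun S => (g S : ℝ))]
    simp only [A, B, mul_sum]
    rw [← sum_add_distrib]
    refine sum_le_sum fun S hS => ?_
    have hSU := (mem_powersetCard.1 hS).1
    rw [← hcard m hm S hS]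
    have e1 : ((U \ S).card : ℝ) * g S = ∑ _e ∈ U \ S, (g S : ℝ) := by
      rw [sum_const, nsmul_eq_mul]
    rw [e1]
    split_ifs with h
    · have e2 : (K : ℝ) ≤ ∑ e ∈ U \ S, (if g (insert e S) + 1 ≤ g S then (1 : ℝ) else 0) := by
        rw [sum_boole]; exact_mod_cast hboost S hSU h
      have e3 : ∑ e ∈ U \ S, (g (insert e S) : ℝ)
          + ∑ e ∈ U \ S, (if g (insert e S) + 1 ≤ g S then (1 : ℝ) else 0)
          ≤ ∑ _e ∈ U \ S, (g S : ℝ) := by
        rw [← sum_add_distrib]
        refine sum_le_sum fun e _ => ?_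
        split_ifs with h'
        · exact_mod_cast h'
        · rw [add_zero]; exact_mod_cast hmono S hSU e
      linarith
    · rw [mul_zero, add_zero]
      exact sum_le_sum fun e _ => by exact_mod_cast hmono S hSU e
  have h2 : ∀ m, m ≤ N → (m + 1) * B (m + 1) ≤ (N - m) * B m := by
    intro m hm
    rw [← layer_dc U m (fun S => if 0 < g S then (1 : ℝ) else 0)]
    simp only [B, mul_sum]
    refine sum_le_sum fun S hS => ?_
    have hSU := (mem_powersetCard.1 hS).1
    rw [← hcard m hm S hS]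
    have e1 : ((U \ S).card : ℝ) * (if 0 < g S then (1 : ℝ) else 0)
        = ∑ _e ∈ U \ S, (if 0 < g S then (1 : ℝ) else 0) := by
      rw [sum_const, nsmul_eq_mul]
    rw [e1]
    refine sum_le_sum fun e _ => ?_
    have := hmono S hSU e
    split_ifs with g1 g2
    · exact le_rfl
    · omega
    · norm_num
    · exact le_rfl
  have h3 : ∀ m, m ≤ N → N * A m + K * m * B m ≤ N * g ∅ * N.choose m := by
    intro m
    induction m with
    | zero => intro _; simp [A]
    | succ m ih =>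
      intro hm
      have i1 := ih (by omega)
      have i2 := h1 m (by omega)
      have i3 := h2 m (by omega)
      have i4 : ((m : ℝ) + 1) * (N.choose (m + 1) : ℝ) = (N - m) * N.choose m := by
        have := Nat.choose_succ_right_eq N m
        have h5 : ((N.choose (m + 1) * (m + 1) : ℕ) : ℝ) = (N.choose m * (N - m) : ℕ) := by
          rw [this]
        push_cast [Nat.cast_sub (show m ≤ N by omega)] at h5
        linarith
      have hm0 : (0 : ℝ) < m + 1 := by positivity
      have hNm : (0 : ℝ) ≤ N - m := by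
        have : (m : ℝ) ≤ N := by exact_mod_cast (by omega : m ≤ N)
        linarith
      have hK : (0 : ℝ) ≤ K := by positivity
      have hN0 : (0 : ℝ) ≤ N := by positivity
      have hm1 : (0 : ℝ) ≤ m := by positivity
      refine le_of_mul_le_mul_left ?_ hm0
      push_cast
      have j1 := mul_le_mul_of_nonneg_left i2 hN0
      have j2 := mul_le_mul_of_nonneg_left i3 (mul_nonneg hK hm0.le)
      have j3 := mul_le_mul_of_nonneg_left i1 hNm
      have j4 : (0 : ℝ) ≤ K * m * B m := mul_nonneg (mul_nonneg hK hm1) (hB0 m)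
      have j5 : ((m : ℝ) + 1) * (N * g ∅ * N.choose (m + 1))
          = (N - m) * (N * g ∅ * N.choose m) := by
        calc ((m : ℝ) + 1) * (N * g ∅ * N.choose (m + 1))
            = N * g ∅ * ((m + 1) * N.choose (m + 1)) := by ring
          _ = _ := by rw [i4]; ring
      rw [j5]
      nlinarith
  have k1 := h1 m hm
  have k2 := h3 m hm
  have k3 : (0 : ℝ) ≤ (m + 1) * A (m + 1) := mul_nonneg (by positivity) (hA0 _)
  have k4 : (0 : ℝ) ≤ m * A m := mul_nonneg (by positivity) (hA0 _)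
  show (K : ℝ) * (m + 1) * B m ≤ _
  nlinarith

theorem prob_gap_le (U : Finset α) (g : Finset α → ℕ) (K : ℕ) (hK : 1 ≤ K)
    (hmono : ∀ S ⊆ U, ∀ e, g (insert e S) ≤ g S)
    (hboost : ∀ S ⊆ U, 0 < g S → K ≤ ((U \ S).filter (fun e => g (insert e S) + 1 ≤ g S)).card)
    {p : ℝ} (hp0 : 0 < p) (hp1 : p ≤ 1) :
    ∑ S ∈ U.powerset, (if 0 < g S then p ^ S.card * (1 - p) ^ (U.card - S.card) else 0)
      ≤ g ∅ / (K * p) := by
  set N := U.card with hN
  have hq : 0 ≤ 1 - p := by linarith
  have hK' : (0 : ℝ) < K := by exact_mod_cast hK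
  rw [sum_powerset, le_div_iff₀ (by positivity), sum_mul]
  have h1 : ∀ m ∈ range (N + 1), (∑ S ∈ powersetCard m U,
      (if 0 < g S then p ^ S.card * (1 - p) ^ (N - S.card) else 0)) * (K * p)
      ≤ g ∅ * (p ^ (m + 1) * (1 - p) ^ (N + 1 - (m + 1)) * (N + 1).choose (m + 1)) := by
    intro m hm
    have hm' : m ≤ N := by rw [mem_range] at hm; omega
    have e1 : ∑ S ∈ powersetCard m U,
        (if 0 < g S then p ^ S.card * (1 - p) ^ (N - S.card) else 0)
        = (∑ S ∈ powersetCard m U, (if 0 < g S then (1 : ℝ) else 0))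
          * (p ^ m * (1 - p) ^ (N - m)) := by
      rw [sum_mul]
      refine sum_congr rfl fun S hS => ?_
      rw [(mem_powersetCard.1 hS).2]
      split_ifs <;> simp
    have e2 := layer_bound U g K hmono hboost m hm'
    rw [← hN] at e2
    have e3 : ((N : ℝ) + 1) * N.choose m = (N + 1).choose (m + 1) * (m + 1) := by
      exact_mod_cast Nat.add_one_mul_choose_eq N m
    rw [e1, show N + 1 - (m + 1) = N - m by omega]
    set Bm := ∑ S ∈ powersetCard m U, (if 0 < g S then (1 : ℝ) else 0)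
    have e4 : (K : ℝ) * Bm ≤ g ∅ * (N + 1).choose (m + 1) := by
      refine le_of_mul_le_mul_right ?_ (show (0 : ℝ) < m + 1 by positivity)
      have e5 : (0 : ℝ) ≤ g ∅ * N.choose m := by positivity
      have e6 : (g ∅ : ℝ) * (N + 1).choose (m + 1) * (m + 1) = g ∅ * ((N + 1) * N.choose m) := by
        rw [e3]; ring
      rw [e6]
      nlinarith
    have e7 : (0 : ℝ) ≤ p ^ (m + 1) * (1 - p) ^ (N - m) := by positivity
    have e8 := mul_le_mul_of_nonneg_right e4 e7
    calc Bm * (p ^ m * (1 - p) ^ (N - m)) * (K * p)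
        = K * Bm * (p ^ (m + 1) * (1 - p) ^ (N - m)) := by ring
      _ ≤ _ := e8
      _ = _ := by ring
  refine le_trans (sum_le_sum h1) ?_
  rw [← mul_sum]
  refine mul_le_of_le_one_right (by positivity) ?_
  have h2 := add_pow p (1 - p) (N + 1)
  rw [sum_range_succ', add_sub_cancel, one_pow] at h2
  have h3 : (0 : ℝ) ≤ p ^ 0 * (1 - p) ^ (N + 1 - 0) * ((N + 1).choose 0 : ℕ) := by positivity
  linarith

omit [DecidableEq α] in
theorem prob_total (U : Finset α) (p : ℝ) :
    ∑ S ∈ U.powerset, p ^ S.card * (1 - p) ^ (U.card - S.card) = 1 := by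
  rw [sum_pow_mul_eq_add_pow]; simp

omit [DecidableEq α] in
theorem prob_mean (U : Finset α) (p : ℝ) :
    ∑ S ∈ U.powerset, (S.card : ℝ) * (p ^ S.card * (1 - p) ^ (U.card - S.card)) = U.card * p := by
  rw [sum_powerset_apply_card (f := fun m => (m : ℝ) * (p ^ m * (1 - p) ^ (U.card - m)))]
  rcases h : U.card with _ | M
  · simp
  · rw [sum_range_succ']
    have h2 := add_pow p (1 - p) M
    rw [add_sub_cancel, one_pow] at h2
    simp only [nsmul_eq_mul, Nat.cast_zero, zero_mul, mul_zero, add_zero]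
    have h3 : ((M + 1 : ℕ) : ℝ) * p = ((M + 1 : ℕ) : ℝ) * p *
        ∑ m ∈ range (M + 1), p ^ m * (1 - p) ^ (M - m) * (M.choose m : ℝ) := by
      rw [← h2, mul_one]
    rw [h3, mul_sum]
    refine sum_congr rfl fun m _ => ?_
    have e3 : ((M : ℝ) + 1) * M.choose m = (M + 1).choose (m + 1) * (m + 1) := by
      exact_mod_cast Nat.add_one_mul_choose_eq M m
    rw [show M + 1 - (m + 1) = M - m by omega]
    push_cast
    calc ((M + 1).choose (m + 1) : ℝ) * ((m + 1) * (p ^ (m + 1) * (1 - p) ^ (M - m)))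
        = ((M + 1).choose (m + 1) * (m + 1)) * (p ^ (m + 1) * (1 - p) ^ (M - m)) := by ring
      _ = _ := by rw [← e3]; ring

end Pool.Agent.H235Z.Ham
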