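import Mathlib
import Pool.Agent.H235Z.Ham.Defs
import Pool.Agent.H235Z.Ham.GH
import Pool.Agent.H235Z.Ham.Layer

/-! The threshold for Hamiltonicity of randomly perturbed digraphs. -/

namespace Pool.Agent.H235Z.Ham

open Finset Filter Topology Asymptotics

theorem finRotate_val {x : ℕ} (i : Fin (x + 1)) :
    ((finRotate (x + 1) i : Fin (x + 1)) : ℕ) = nxt (x + 1) i := by
  rw [finRotate_apply, Fin.val_add_one]
  unfold nxt
  by_cases h : i = Fin.last x
  · rw [if_pos h, if_pos (by rw [h]; simp)]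
  · rw [if_neg h, if_neg]
    intro h'
    exact h (Fin.ext (by simp; omega))

theorem ham_of_gap {n : ℕ} (hn : 1 ≤ n) (D : Finset (Fin n × Fin n))
    (h : gap (fun u v => (u, v) ∈ D) n = 0) : IsHamiltonian D := by
  obtain ⟨x, rfl⟩ : ∃ x, n = x + 1 := ⟨n - 1, by omega⟩
  obtain ⟨f, hf, e0⟩ := gap_spec (fun u v : Fin (x + 1) => (u, v) ∈ D) (Fintype.card_fin _)
  rw [h, card_eq_zero] at e0
  have hinj : Function.Injective (fun i : Fin (x + 1) => f i) := fun i j e =>
    Fin.ext (hf _ i.2 _ j.2 e)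
  refine ⟨Equiv.ofBijective _ (Finite.injective_iff_bijective.1 hinj), fun i => ?_⟩
  show (f i, f (finRotate (x + 1) i : Fin (x + 1))) ∈ D
  rw [finRotate_val]
  by_contra hc
  have : (i : ℕ) ∈ badSet (fun u v : Fin (x + 1) => (u, v) ∈ D) (x + 1) f :=
    mem_badSet.2 ⟨i.2, hc⟩
  rw [e0] at this
  exact notMem_empty _ this

theorem prob_compl (n : ℕ) (p : ℝ) (P : Finset (Fin n × Fin n) → Prop) :
    prob n p P = 1 - prob n p (fun S => ¬ P S) := by
  unfold prob
  rw [eq_sub_iff_add_eq, ← sum_add_distrib]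
  refine Eq.trans (sum_congr rfl fun S _ => ?_) (prob_total (univ : Finset (Fin n)).offDiag p)
  by_cases h : P S <;> simp [h]

theorem prob_nonneg (n : ℕ) {p : ℝ} (h0 : 0 ≤ p) (h1 : p ≤ 1)
    (P : Finset (Fin n × Fin n) → Prop) : 0 ≤ prob n p P := by
  unfold prob
  have : 0 ≤ 1 - p := by linarith
  exact sum_nonneg fun S _ => by split_ifs <;> positivity

theorem upper_fin {n k κ t : ℕ} (hk : 1 ≤ k) (h1 : 100 * k ≤ n) (h2 : n ≤ 101 * k)
    (h3 : 49 * k ≤ κ) (h4 : n ≤ 2 * κ + t) (D : Finset (Fin n × Fin n)) (hD : IsDigraph D)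
    (hdeg : ∀ v : Fin n, κ ≤ (univ.filter fun w => (v, w) ∈ D).card ∧
      κ ≤ (univ.filter fun w => (w, v) ∈ D).card) {p : ℝ} (hp0 : 0 < p) (hp1 : p ≤ 1) :
    prob n p (fun S => ¬ IsHamiltonian (D ∪ S)) ≤ t / ((k ^ 2 : ℕ) * p) := by
  classical
  have hn1 : 1 ≤ n := by omega
  have hne : Nonempty (Fin n) := ⟨⟨0, by omega⟩⟩
  set U := (univ : Finset (Fin n)).offDiag with hU
  let g : Finset (Fin n × Fin n) → ℕ := fun S => gap (fun u v => (u, v) ∈ D ∪ S) n
  have hmono : ∀ S ⊆ U, ∀ e, g (insert e S) ≤ g S := fun S _ e =>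
    gap_mono (fun u v h => union_subset_union_right (subset_insert e S) h) (Fintype.card_fin n)
  have hboost : ∀ S ⊆ U, 0 < g S →
      k ^ 2 ≤ ((U \ S).filter (fun e => g (insert e S) + 1 ≤ g S)).card := by
    intro S _ hg
    obtain ⟨B, hB1, hB2⟩ := boosters (fun u v : Fin n => (u, v) ∈ D ∪ S) (Fintype.card_fin n) hk h1
      h2 (fun u => le_trans h3 (le_trans (hdeg u).1 (card_le_card fun v hv =>
        mem_filter.2 ⟨mem_univ _, mem_union_left _ (mem_filter.1 hv).2⟩)))
      (fun u => le_trans h3 (le_trans (hdeg u).2 (card_le_card fun v hv =>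
        mem_filter.2 ⟨mem_univ _, mem_union_left _ (mem_filter.1 hv).2⟩))) hg
    refine le_trans hB1 (card_le_card fun e he => ?_)
    obtain ⟨i1, i2⟩ := hB2 e he
    refine mem_filter.2 ⟨mem_sdiff.2 ⟨mem_offDiag.2 ⟨mem_univ _, mem_univ _, i1⟩, fun heS => ?_⟩, ?_⟩
    · have := gap_mono (E := fun u v : Fin n => (u, v) ∈ D ∪ S ∨ (u, v) = e)
        (E' := fun u v : Fin n => (u, v) ∈ D ∪ S) (fun u v h => by
          rcases h with h | h
          · exact h
          · rw [h]; exact mem_union_right _ heS) (Fintype.card_fin n)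
      omega
    · have := gap_mono (E := fun u v : Fin n => (u, v) ∈ D ∪ S ∨ (u, v) = e)
        (E' := fun u v : Fin n => (u, v) ∈ D ∪ insert e S) (fun u v h => by
          rcases h with h | h
          · exact union_subset_union_right (subset_insert e S) h
          · rw [h]; exact mem_union_right _ (mem_insert_self _ _)) (Fintype.card_fin n)
      show gap _ n + 1 ≤ gap _ n
      omega
  have h5 := prob_gap_le U g (k ^ 2) (Nat.one_le_pow _ _ hk) hmono hboost hp0 hp1
  have h6 : g ∅ ≤ t := by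
    refine gap_le_deficiency t (fun u v : Fin n => (u, v) ∈ D ∪ ∅) (fun v h => ?_)
      (Fintype.card_fin n) hn1 h4 (fun u => ?_) (fun u => ?_)
    · rw [union_empty] at h; exact hD _ h rfl
    · simpa using (hdeg u).1
    · simpa using (hdeg u).2
  have h7 : (g ∅ : ℝ) / ((k ^ 2 : ℕ) * p) ≤ t / ((k ^ 2 : ℕ) * p) :=
    div_le_div_of_nonneg_right (by exact_mod_cast h6) (by positivity)
  refine le_trans ?_ (le_trans h5 h7)
  unfold prob
  refine sum_le_sum fun S _ => ?_
  have hq : 0 ≤ 1 - p := by linarith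
  by_cases h : IsHamiltonian (D ∪ S)
  · rw [if_neg (not_not.2 h)]
    split_ifs <;> positivity
  · rw [if_pos h, if_pos]
    by_contra hc
    exact h (ham_of_gap hn1 _ (Nat.eq_zero_of_not_pos hc))

/-- the extremal digraph -/
def ext (n κ : ℕ) : Finset (Fin n × Fin n) :=
  univ.filter fun e => e.1 ≠ e.2 ∧ ((e.1 : ℕ) < κ ∨ (e.2 : ℕ) < κ)

theorem card_lt_fin {n κ : ℕ} (h : κ ≤ n) :
    (univ.filter fun w : Fin n => (w : ℕ) < κ).card = κ := by
  rw [Fin.card_filter_val_lt]; omega

theorem ext_deg {n κ : ℕ} (h : 2 * κ ≤ n) (v : Fin n) :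
    κ ≤ (univ.filter fun w => (v, w) ∈ ext n κ).card ∧
      κ ≤ (univ.filter fun w => (w, v) ∈ ext n κ).card := by
  by_cases hv : (v : ℕ) < κ
  · have e : (univ.erase v).card = n - 1 := by
      rw [card_erase_of_mem (mem_univ _), card_univ, Fintype.card_fin]
    constructor
    · refine le_trans (show κ ≤ (univ.erase v).card by omega) (card_le_card fun w hw => ?_)
      simp only [ext, mem_filter, mem_univ, true_and]
      exact ⟨(mem_erase.1 hw).1.symm, Or.inl hv⟩
    · refine le_trans (show κ ≤ (univ.erase v).card by omega) (card_le_card fun w hw => ?_)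
      simp only [ext, mem_filter, mem_univ, true_and]
      exact ⟨(mem_erase.1 hw).1, Or.inr hv⟩
  · have e := card_lt_fin (n := n) (κ := κ) (by omega)
    constructor
    · refine le_trans e.ge (card_le_card fun w hw => ?_)
      simp only [ext, mem_filter, mem_univ, true_and] at hw ⊢
      exact ⟨fun h' => hv (h' ▸ hw), Or.inr hw⟩
    · refine le_trans e.ge (card_le_card fun w hw => ?_)
      simp only [ext, mem_filter, mem_univ, true_and] at hw ⊢
      exact ⟨fun h' => hv (h' ▸ hw), Or.inl hw⟩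

theorem ext_ham {n κ : ℕ} (h : κ ≤ n) (S : Finset (Fin n × Fin n))
    (hH : IsHamiltonian (ext n κ ∪ S)) : n ≤ 2 * κ + S.card := by
  obtain ⟨e, he⟩ := hH
  have c1 : (univ.filter fun i : Fin n => ((e i : Fin n) : ℕ) < κ).card ≤ κ := by
    refine le_trans (card_le_card_of_injOn (t := univ.filter fun w : Fin n => (w : ℕ) < κ) e ?_
      e.injective.injOn) (card_lt_fin h).le
    intro i hi
    simpa using hi
  have c2 : (univ.filter fun i : Fin n => ((e (finRotate n i) : Fin n) : ℕ) < κ).card ≤ κ := by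
    refine le_trans (card_le_card_of_injOn (t := univ.filter fun w : Fin n => (w : ℕ) < κ)
      (fun i => e (finRotate n i)) ?_
      (e.injective.comp (finRotate n).injective).injOn) (card_lt_fin h).le
    intro i hi
    simpa using hi
  have c3 : (univ.filter fun i : Fin n => (e i, e (finRotate n i)) ∈ S).card ≤ S.card := by
    refine card_le_card_of_injOn (fun i => (e i, e (finRotate n i))) ?_ ?_
    · intro i hi
      simpa using hi
    · intro i _ j _ hij
      exact e.injective (Prod.mk.inj hij).1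
  have c4 : (univ : Finset (Fin n)) ⊆ ((univ.filter fun i : Fin n => ((e i : Fin n) : ℕ) < κ) ∪
      (univ.filter fun i : Fin n => ((e (finRotate n i) : Fin n) : ℕ) < κ)) ∪
      (univ.filter fun i : Fin n => (e i, e (finRotate n i)) ∈ S) := by
    intro i _
    rcases mem_union.1 (he i) with h1 | h1
    · simp only [ext, mem_filter, mem_univ, true_and] at h1
      rcases h1.2 with h2 | h2
      · exact mem_union_left _ (mem_union_left _ (mem_filter.2 ⟨mem_univ _, h2⟩))
      · exact mem_union_left _ (mem_union_right _ (mem_filter.2 ⟨mem_univ _, h2⟩))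
    · exact mem_union_right _ (mem_filter.2 ⟨mem_univ _, h1⟩)
  have c5 := le_trans (card_le_card c4) (le_trans (card_union_le _ _)
    (Nat.add_le_add_right (card_union_le _ _) _))
  rw [card_univ, Fintype.card_fin] at c5
  omega

theorem lower_fin {n κ : ℕ} (h : 2 * κ < n) {p : ℝ} (hp0 : 0 ≤ p) (hp1 : p ≤ 1) :
    prob n p (fun S => IsHamiltonian (ext n κ ∪ S)) ≤ (n : ℝ) ^ 2 * p / (n - 2 * κ) := by
  have ht : (0 : ℝ) < n - 2 * κ := by
    have : ((2 * κ : ℕ) : ℝ) < n := by exact_mod_cast h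
    push_cast at this; linarith
  have hq : 0 ≤ 1 - p := by linarith
  rw [le_div_iff₀ ht]
  have h1 := prob_mean (univ : Finset (Fin n)).offDiag p
  have h2 : (((univ : Finset (Fin n)).offDiag.card : ℕ) : ℝ) ≤ (n : ℝ) ^ 2 := by
    have : (univ : Finset (Fin n)).offDiag.card ≤ n ^ 2 := by
      rw [offDiag_card, card_univ, Fintype.card_fin, sq]; omega
    exact_mod_cast this
  refine le_trans ?_ (le_trans h1.le (mul_le_mul_of_nonneg_right h2 hp0))
  unfold prob
  rw [sum_mul]
  refine sum_le_sum fun S _ => ?_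
  split_ifs with hH
  · have h3 := ext_ham (by omega) S hH
    have h4 : (n : ℝ) - 2 * κ ≤ S.card := by
      have : (n : ℝ) ≤ ((2 * κ + S.card : ℕ) : ℝ) := by exact_mod_cast h3
      push_cast at this; linarith
    rw [mul_comm]
    exact mul_le_mul_of_nonneg_right h4 (by positivity)
  · rw [zero_mul]; positivity

theorem main (η : ℕ → ℝ) (h1 : ∀ n, 1 / 2 ≤ η n) (h2 : η =o[atTop] fun n => (n : ℝ))
    (h3 : ∀ᶠ n : ℕ in atTop, ∃ k : ℤ, (n : ℝ) / 2 - η n ≤ k ∧ (k : ℝ) < (n : ℝ) / 2) :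
    IsThreshold (fun n => (n : ℝ) / 2 - η n) (fun n => η n / (n : ℝ) ^ 2) := by
  have hη : ∀ n, 0 < η n := fun n => by have := h1 n; linarith
  have hsm : ∀ᶠ n : ℕ in atTop, η n ≤ n / 100 := by
    filter_upwards [h2.def (c := 1 / 100) (by norm_num)] with n hn
    rw [Real.norm_eq_abs, Real.norm_eq_abs, abs_of_pos (hη n), Nat.abs_cast] at hn
    linarith
  constructor
  · intro p hp hqp D hD
    have hlim : Tendsto (fun n => (4 * 101 ^ 2 : ℝ) * ((η n / (n : ℝ) ^ 2) / p n)) atTop (𝓝 0) := by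
      simpa using hqp.tendsto_div_nhds_zero.const_mul (4 * 101 ^ 2 : ℝ)
    have hz : Tendsto (fun n => prob n (p n) fun S => ¬ IsHamiltonian (D n ∪ S)) atTop (𝓝 0) := by
      refine squeeze_zero' (Eventually.of_forall fun n => prob_nonneg n (hp n).1 (hp n).2 _) ?_ hlim
      filter_upwards [hsm, hqp.def (c := 1) one_pos, eventually_ge_atTop 10000] with n g1 g2 g3
      have hn0 : (0 : ℝ) < n := by exact_mod_cast (by omega : 0 < n)
      have hq0 : 0 < η n / (n : ℝ) ^ 2 := div_pos (hη n) (by positivity)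
      have hp0 : 0 < p n := by
        rw [Real.norm_eq_abs, Real.norm_eq_abs, abs_of_pos hq0, abs_of_nonneg (hp n).1] at g2
        linarith
      have hk1 : ((100 * (n / 100) : ℕ) : ℝ) ≤ n := by exact_mod_cast Nat.mul_div_le n 100
      have hk2 : (n : ℝ) ≤ ((101 * (n / 100) : ℕ) : ℝ) := by
        exact_mod_cast (by omega : n ≤ 101 * (n / 100))
      push_cast at hk1 hk2
      have hκ := Nat.le_ceil ((n : ℝ) / 2 - η n)
      have ht := Nat.le_ceil (2 * η n)
      have ht' := Nat.ceil_lt_add_one (show 0 ≤ 2 * η n by have := hη n; linarith)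
      have key := upper_fin (n := n) (k := n / 100) (κ := ⌈(n : ℝ) / 2 - η n⌉₊) (t := ⌈2 * η n⌉₊)
        (by omega) (by omega) (by omega)
        (by
          have : ((49 * (n / 100) : ℕ) : ℝ) ≤ (⌈(n : ℝ) / 2 - η n⌉₊ : ℕ) := by
            push_cast; linarith
          exact_mod_cast this)
        (by
          have : (n : ℝ) ≤ ((2 * ⌈(n : ℝ) / 2 - η n⌉₊ + ⌈2 * η n⌉₊ : ℕ) : ℝ) := by
            push_cast; linarith
          exact_mod_cast this)
        (D n) (hD n).1 (fun v => ⟨Nat.ceil_le.2 ((hD n).2 v).1, Nat.ceil_le.2 ((hD n).2 v).2⟩)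
        hp0 (hp n).2
      refine le_trans key ?_
      set k : ℝ := ((n / 100 : ℕ) : ℝ) with hk
      have hk0 : 0 < k := by linarith
      have e1 : (4 * 101 ^ 2 : ℝ) * ((η n / (n : ℝ) ^ 2) / p n)
          = (4 * η n) / (((n : ℝ) / 101) ^ 2 * p n) := by
        field_simp
      rw [e1]
      push_cast
      rw [← hk]
      have e2 : ((n : ℝ) / 101) ^ 2 ≤ k ^ 2 :=
        pow_le_pow_left₀ (by positivity) (by linarith) 2
      have e3 := h1 n
      exact div_le_div₀ (by linarith) (by linarith) (by positivity)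
        (mul_le_mul_of_nonneg_right e2 hp0.le)
    have := hz.const_sub 1
    rw [sub_zero] at this
    exact this.congr fun n => (prob_compl n (p n) _).symm
  · intro p hp hpq
    have hκ : ∀ n : ℕ, 2 * ⌈(n : ℝ) / 2 - η n⌉₊ ≤ n := by
      intro n
      have e1 : (n : ℝ) ≤ ((2 * (n / 2) + 1 : ℕ) : ℝ) := by
        exact_mod_cast (by omega : n ≤ 2 * (n / 2) + 1)
      push_cast at e1
      have e2 : ⌈(n : ℝ) / 2 - η n⌉₊ ≤ n / 2 := Nat.ceil_le.2 (by have := h1 n; linarith)
      omega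
    refine ⟨fun n => ext n ⌈(n : ℝ) / 2 - η n⌉₊, fun n => ⟨fun e he => (mem_filter.1 he).2.1,
      fun v => ⟨Nat.ceil_le.1 (ext_deg (hκ n) v).1, Nat.ceil_le.1 (ext_deg (hκ n) v).2⟩⟩, ?_⟩
    have hlim : Tendsto (fun n => (3 / 2 : ℝ) * (p n / (η n / (n : ℝ) ^ 2))) atTop (𝓝 0) := by
      simpa using hpq.tendsto_div_nhds_zero.const_mul (3 / 2 : ℝ)
    have hz : Tendsto (fun n => prob n (p n) fun S =>
        IsHamiltonian (ext n ⌈(n : ℝ) / 2 - η n⌉₊ ∪ S)) atTop (𝓝 0) := by
      refine squeeze_zero' (Eventually.of_forall fun n => prob_nonneg n (hp n).1 (hp n).2 _) ?_ hlim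
      filter_upwards [hsm, h3, eventually_ge_atTop 1] with n g1 ⟨k, g2, g3⟩ g4
      have hn0 : (0 : ℝ) < n := by exact_mod_cast (by omega : 0 < n)
      have hd0 : 0 ≤ (n : ℝ) / 2 - η n := by linarith
      have hk0 : 0 ≤ k := by
        have : (0 : ℝ) ≤ k := le_trans hd0 g2
        exact_mod_cast this
      obtain ⟨k', rfl⟩ := Int.eq_ofNat_of_zero_le hk0
      have g2' : (n : ℝ) / 2 - η n ≤ (k' : ℝ) := by exact_mod_cast g2
      have g3' : (k' : ℝ) < (n : ℝ) / 2 := by exact_mod_cast g3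
      have e1 : ⌈(n : ℝ) / 2 - η n⌉₊ ≤ k' := Nat.ceil_le.2 g2'
      have e2 : 2 * k' < n := by
        have : ((2 * k' : ℕ) : ℝ) < n := by push_cast; linarith
        exact_mod_cast this
      have e3 : 2 * ⌈(n : ℝ) / 2 - η n⌉₊ + 1 ≤ n := by omega
      have e4 : ((2 * ⌈(n : ℝ) / 2 - η n⌉₊ + 1 : ℕ) : ℝ) ≤ n := by exact_mod_cast e3
      push_cast at e4
      have e5 := Nat.ceil_lt_add_one hd0
      refine le_trans (lower_fin (by omega) (hp n).1 (hp n).2) ?_
      have e6 : (3 / 2 : ℝ) * (p n / (η n / (n : ℝ) ^ 2)) = (n : ℝ) ^ 2 * p n / (2 * η n / 3) := by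
        have := hη n
        field_simp
      rw [e6]
      have e7 := hη n
      have e8 := (hp n).1
      exact div_le_div_of_nonneg_left (by positivity) (by positivity) (by linarith)
    have := hz.const_sub 1
    rw [sub_zero] at this
    refine this.congr fun n => ?_
    rw [prob_compl n (p n) (fun S => IsHamiltonian _)]
    ring

end Pool.Agent.H235Z.Ham
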